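import Pool.Agent.Lib.MP_a5f47e_lc.ClosedRange

namespace Pool.Agent.Results.MP_a5f47e_lc.ClosedSubgroup

open Pool.Agent.Lib.MP_a5f47e_lc in
/-- There is a tame non-archimedean abelian Polish group `U` such that every tame non-archimedean
abelian Polish group is isomorphic, as a topological group, to a closed subgroup of `U`. -/
theorem result :
    ∃ (U : Type) (_ : CommGroup U) (_ : TopologicalSpace U) (_ : NonarchimedeanGroup U)
      (_ : PolishSpace U),
      (∀ (X : Type) [TopologicalSpace X] [PolishSpace X] [MulAction U X] [ContinuousSMul U X],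
        @MeasurableSet (X × X) (borel (X × X)) {p : X × X | ∃ g : U, g • p.1 = p.2}) ∧
      ∀ (G : Type) [CommGroup G] [TopologicalSpace G] [NonarchimedeanGroup G] [PolishSpace G],
        (∀ (X : Type) [TopologicalSpace X] [PolishSpace X] [MulAction G X] [ContinuousSMul G X],
          @MeasurableSet (X × X) (borel (X × X)) {p : X × X | ∃ g : G, g • p.1 = p.2}) →
        ∃ H : Subgroup U, IsClosed (H : Set U) ∧ Nonempty (G ≃ₜ* H) := by
  have hna : NonarchimedeanGroup (Multiplicative UU) :=
    { is_nonarchimedean := fun s hs => by
        obtain ⟨V, h1, h2⟩ := UU_na s hs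
        exact ⟨⟨AddSubgroup.toSubgroup V, h1⟩, h2⟩ }
  have hpol : PolishSpace UU := ⟨⟩
  have hpol' : PolishSpace (Multiplicative UU) := hpol
  refine ⟨Multiplicative UU, inferInstance, inferInstance, hna, hpol', ?_, ?_⟩
  · intro X _ _ _ _
    exact UU_tame X (fun g x => Multiplicative.ofAdd g • x)
      (fun x => one_smul _ x) (fun g h x => mul_smul (Multiplicative.ofAdd g) _ x)
      (continuous_smul (M := Multiplicative UU))
  · intro G _ _ _ hP hG
    have hP' : PolishSpace (Additive G) := hP
    have hT : Tame (Additive G) := by
      intro X _ _ act h0 hadd hcont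
      let _ : MulAction G X :=
        { smul := fun g x => act (Additive.ofMul g) x
          one_smul := h0
          mul_smul := fun g h x => hadd (Additive.ofMul g) (Additive.ofMul h) x }
      have : ContinuousSMul G X := ⟨hcont⟩
      exact hG X
    obtain ⟨f, hf⟩ := exists_embedding (G := Additive G)
      (fun s hs => by
        obtain ⟨V, hV⟩ := NonarchimedeanGroup.is_nonarchimedean (G := G) s hs
        exact ⟨Subgroup.toAddSubgroup V.toSubgroup, V.isOpen, hV⟩) hT
    let φ : G →* Multiplicative UU := AddMonoidHom.toMultiplicativeRight f
    have hφ : Topology.IsEmbedding φ := hf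
    refine ⟨φ.range, isClosed_range_of_isEmbedding φ hφ, ⟨?_⟩⟩
    have h1 : Continuous (MonoidHom.ofInjective hφ.injective) := hφ.continuous.subtype_mk _
    have h2 : Continuous (MonoidHom.ofInjective hφ.injective).symm := by
      rw [hφ.continuous_iff]
      have : (φ : G → Multiplicative UU) ∘ (MonoidHom.ofInjective hφ.injective).symm =
          Subtype.val := by
        funext y
        exact MonoidHom.apply_ofInjective_symm hφ.injective y
      rw [this]
      exact continuous_subtype_val
    exact { MonoidHom.ofInjective hφ.injective with
      continuous_toFun := h1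
      continuous_invFun := h2 }

end Pool.Agent.Results.MP_a5f47e_lc.ClosedSubgroup
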